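import Pool.Agent.D0H63.AR.Main

set_option autoImplicit false

/-! Values of functions on an arbitrary open set at all the roots of the rational polynomials near to a real polynomial without roots on
the boundary; functions of one variable as functions on `ℂ ^ Unit`. -/

namespace Pool.Agent.D0H63.AR

open Polynomial Filter Topology MeasureTheory
open Pool.Agent.X255.NP Pool.Agent.X255.RH Pool.Agent.X255.NH
open Pool.Agent.D0H63.MR (levels lv lv_spec lv_tendsto)

variable {σ : Type} [Fintype σ] [DecidableEq σ] {V : Set ℂ} {f : σ → ℂ → ℂ} {g : ℕ}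

/-- near a polynomial the roots in `V` which are not near to the roots on the boundary keep a distance from the complement -/
theorem frontier_near {V : Set ℂ} (hVo : IsOpen V) (ω : Fin g → ℂ) (S : Finset ℂ)
    (hfr : ∀ z ∈ frontier V, (mp ω).eval z = 0 → z ∈ S) {r : ℝ} (hr : 0 < r) (R : ℝ) :
    ∃ η : ℝ, 0 < η ∧ ∀ z : Fin g → ℂ, (∀ i, ‖z i‖ ≤ R) → (∀ i, ‖co z i - ω i‖ < η) →
      ∀ i, z i ∈ V → (∀ p ∈ S, r ≤ ‖z i - p‖) → Metric.ball (z i) η ⊆ V := by
  classical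
  rcases (Vᶜ).eq_empty_or_nonempty with hW | hW
  · refine ⟨1, one_pos, fun z _ _ i _ _ y _ => ?_⟩
    by_contra hy
    have : y ∈ Vᶜ := hy
    rw [hW] at this
    exact this
  have hWc : IsClosed Vᶜ := hVo.isClosed_compl
  have h1 : ∀ i : Fin g, ∃ η : ℝ, 0 < η ∧ ∀ z ∈ Metric.closedBall (0 : Fin g → ℂ) |R| ∩
      ({z | z i ∈ closure V} ∩ ⋂ p ∈ S, {z | r ≤ ‖z i - p‖}),
      η ≤ ‖co z - ω‖ + Metric.infDist (z i) Vᶜ := by
    intro i
    have hK : IsCompact (Metric.closedBall (0 : Fin g → ℂ) |R| ∩ ({z | z i ∈ closure V} ∩ ⋂ p ∈ S, {z | r ≤ ‖z i - p‖})) := by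
      refine (isCompact_closedBall _ _).inter_right ((isClosed_closure.preimage (continuous_apply i)).inter ?_)
      refine isClosed_biInter fun p _ => ?_
      exact isClosed_le continuous_const (((continuous_apply i).sub continuous_const).norm)
    refine pos_compact hK _ (Continuous.continuousOn ?_) fun z hz => ?_
    · exact (co_cont.sub continuous_const).norm.add ((Metric.continuous_infDist_pt _).comp (continuous_apply i))
    · by_contra hle
      have hle := not_lt.1 hle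
      have e1 := norm_nonneg (co z - ω)
      have e2 : 0 ≤ Metric.infDist (z i) Vᶜ := Metric.infDist_nonneg
      have h2 : ‖co z - ω‖ = 0 := le_antisymm (by linarith) e1
      have h3 : Metric.infDist (z i) Vᶜ = 0 := le_antisymm (by linarith) e2
      rw [norm_eq_zero, sub_eq_zero] at h2
      have h4 : z i ∈ Vᶜ := (hWc.mem_iff_infDist_zero hW).2 h3
      have h5 : z i ∈ frontier V := by
        rw [hVo.frontier_eq]
        exact ⟨hz.2.1, h4⟩
      have h6 : (mp ω).eval (z i) = 0 := by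
        rw [← h2, mp_co, eval_prod]
        refine Finset.prod_eq_zero (Finset.mem_univ i) ?_
        rw [eval_sub, eval_X, eval_C, sub_self]
      have h7 := Set.mem_iInter₂.1 hz.2.2 (z i) (hfr _ h5 h6)
      rw [Set.mem_ofPred_eq, sub_self, norm_zero] at h7
      linarith
  choose η1 h1p h1 using h1
  obtain ⟨a, ha, ha'⟩ := exists_le_all η1 h1p
  refine ⟨a / 2, by positivity, fun z hz hco i hi hS y hy => ?_⟩
  by_contra hyV
  have hzK : z ∈ Metric.closedBall (0 : Fin g → ℂ) |R| := by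
    rw [Metric.mem_closedBall, dist_zero_right, pi_norm_le_iff_of_nonneg (abs_nonneg R)]
    exact fun i => (hz i).trans (le_abs_self R)
  have hcoz : ‖co z - ω‖ < a / 2 := by
    rw [pi_norm_lt_iff (by positivity)]
    exact hco
  have h3 := h1 i z ⟨hzK, subset_closure hi, Set.mem_iInter₂.2 fun p hp => hS p hp⟩
  have h4 := ha' i
  have h5 : Metric.infDist (z i) Vᶜ ≤ dist (z i) y := Metric.infDist_le_dist_of_mem hyV
  rw [Metric.mem_ball, dist_comm] at hy
  linarith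

/-- the roots of `P` on the boundary of `V` are real, and `V` has no real points near to them -/
def Fr (V : Set ℂ) (P : ℂ[X]) : Prop :=
  ∀ z ∈ frontier V, P.eval z = 0 → z.im = 0 ∧ ∃ r : ℝ, 0 < r ∧ ∀ y ∈ V, y.im = 0 → r ≤ ‖y - z‖

/-- **the position of the roots near a polynomial with simple roots** -/
theorem near_inn_open {V : Set ℂ} (hVo : IsOpen V) (ω : Fin g → ℝ)
    (hsep : (mp fun i => (ω i : ℂ)).Separable) (hfr : Fr V (mp fun i => (ω i : ℂ))) :
    ∃ R η δ : ℝ, 0 < η ∧ 0 < δ ∧ ∀ a : Fin (g + 1) → ℤ, a (Fin.last g) ≠ 0 →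
      (∀ i : Fin g, |ω i - (a i.castSucc : ℝ) / a (Fin.last g)| < δ) → Inn V V R η a := by
  classical
  obtain ⟨M, hM⟩ : ∃ M : ℝ, M = 1 + ∑ i, |ω i| := ⟨_, rfl⟩
  have hM1 : 1 ≤ M := by
    rw [hM]
    have : 0 ≤ ∑ i, |ω i| := Finset.sum_nonneg fun i _ => abs_nonneg _
    linarith
  have hωM : ∀ i, |ω i| + 1 ≤ M := by
    intro i
    have := Finset.single_le_sum (f := fun i => |ω i|) (fun j _ => abs_nonneg _) (Finset.mem_univ i)
    rw [hM]
    linarith
  obtain ⟨η₀, hη₀, hsn⟩ := sep_near (fun i => (ω i : ℂ)) hsep ∅ (by simp) (M + 1)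
  obtain ⟨P, hP⟩ : ∃ P : ℂ[X], P = mp fun i => (ω i : ℂ) := ⟨_, rfl⟩
  have hP0 : P ≠ 0 := by
    rw [hP]
    exact (mp_monic _).ne_zero
  obtain ⟨S, hS⟩ : ∃ S : Finset ℂ, S = P.roots.toFinset.filter fun z => z ∈ frontier V := ⟨_, rfl⟩
  have hSmem : ∀ z, z ∈ S ↔ P.eval z = 0 ∧ z ∈ frontier V := by
    intro z
    rw [hS, Finset.mem_filter, Multiset.mem_toFinset, mem_roots hP0, IsRoot.def]
  have hr1 : ∀ p : S, ∃ r : ℝ, 0 < r ∧ ∀ y ∈ V, y.im = 0 → r ≤ ‖y - p‖ := by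
    rintro ⟨p, hp⟩
    have h1 := (hSmem p).1 hp
    rw [hP] at h1
    exact (hfr p h1.2 h1.1).2
  choose r hrp hr using hr1
  obtain ⟨r₁, hr₁, hr₁'⟩ := exists_le_all r hrp
  obtain ⟨r₀, hr₀⟩ : ∃ r₀ : ℝ, r₀ = min r₁ (η₀ / 4) := ⟨_, rfl⟩
  have hr₀p : 0 < r₀ := by rw [hr₀]; exact lt_min hr₁ (by linarith)
  obtain ⟨η₁, hη₁, hsn'⟩ := frontier_near hVo (fun i => (ω i : ℂ)) S (fun z hz h0 => by
    rw [hSmem, hP]
    exact ⟨h0, hz⟩) hr₀p (M + 1)
  refine ⟨M + 1, min η₀ η₁, min (min η₀ η₁) 1, lt_min hη₀ hη₁, lt_min (lt_min hη₀ hη₁) one_pos, fun a ha hclose => ?_⟩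
  obtain ⟨z, hz, hco⟩ := exists_roots a ha
  have hq : ∀ i, quoC a i = (((a i.castSucc : ℝ) / a (Fin.last g) : ℝ) : ℂ) := by
    intro i
    simp only [quoC, quo]
    push_cast
    rfl
  have hqω : ∀ i, ‖quoC a i - (ω i : ℂ)‖ < min (min η₀ η₁) 1 := by
    intro i
    rw [hq, ← Complex.ofReal_sub, Complex.norm_real, Real.norm_eq_abs, abs_sub_comm]
    exact hclose i
  have hqM : ∀ i, ‖co z i‖ ≤ M := by
    intro i
    rw [hco]
    have h1 := norm_le_norm_add_norm_sub' (quoC a i) (ω i : ℂ)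
    have h2 := (hqω i).le.trans (min_le_right _ _)
    rw [Complex.norm_real, Real.norm_eq_abs] at h1
    linarith [hωM i]
  have hzR : ∀ i, ‖z i‖ ≤ M + 1 := by
    intro i
    refine root_le hM1 _ hqM _ ?_
    rw [mp_co, eval_prod, Finset.prod_eq_zero (Finset.mem_univ i) (by simp)]
  have hs1 := (hsn z hzR (fun i => by
    rw [hco]
    exact (hqω i).trans_le ((min_le_left _ _).trans (min_le_left _ _)))).1
  have hs2 := hsn' z hzR (fun i => by
    rw [hco]
    exact (hqω i).trans_le ((min_le_left _ _).trans (min_le_right _ _)))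
  refine ⟨z, hz, hzR, fun i j hij => (min_le_left _ _).trans (hs1 i j hij),
    fun i hi => (Metric.ball_subset_ball (min_le_right _ _)).trans (hs2 i hi fun p hp => ?_)⟩
  by_contra hlt
  have hlt := not_le.1 hlt
  have h1 := (hSmem p).1 hp
  rw [hP] at h1
  have hpim : p.im = 0 := (hfr p h1.2 h1.1).1
  by_cases him : (z i).im = 0
  · have h2 := hr ⟨p, hp⟩ (z i) hi him
    have h3 := hr₁' ⟨p, hp⟩
    have h4 : r₀ ≤ r₁ := by rw [hr₀]; exact min_le_left _ _
    simp only at h2 h3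
    linarith
  · obtain ⟨j, hj⟩ := (IsRoots.root_iff hz).1 (pol_conj a (z i) (hz.root i))
    have hij : i ≠ j := by
      rintro rfl
      apply him
      have h1 := congrArg Complex.im hj
      rw [Complex.conj_im] at h1
      linarith
    have h2 := hs1 i j hij
    rw [hj] at h2
    have h3 : ‖z i - (starRingEnd ℂ) (z i)‖ = 2 * |(z i).im| := by
      rw [Complex.sub_conj, norm_mul, Complex.norm_I, mul_one, Complex.norm_real, Real.norm_eq_abs, abs_mul,
        abs_of_pos (by norm_num : (0 : ℝ) < 2)]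
    have h4 := Complex.abs_im_le_norm (z i - p)
    rw [Complex.sub_im, hpim, sub_zero] at h4
    have h5 : r₀ ≤ η₀ / 4 := by rw [hr₀]; exact min_le_right _ _
    rw [h3] at h2
    linarith

/-- **All roots of the rational polynomials near to a real polynomial, arbitrary open sets.** -/
theorem near_poly_open (hg : 0 < g) (hV : IsPreconnected V) (hVo : IsOpen V) (hf : ∀ v, AnalyticOnNhd ℂ (f v) V)
    (h : Indep V f) (ξ : ℕ → ℂ) {τ : ℝ} (hτ : 0 < τ) :
    ∃ E : Set (Fin g → ℝ), dimH E ≤ ENNReal.ofReal (g / τ) ∧ ∀ ω ∉ E, (mp fun i => (ω i : ℂ)).Separable →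
      Fr V (mp fun i => (ω i : ℂ)) → ∀ (k : ℕ) (C : ℝ), ∀ᶠ T : ℝ in atTop,
        ∀ a : Fin (g + 1) → ℤ, (∀ i, |(a i : ℝ)| ≤ T) → a (Fin.last g) ≠ 0 →
          (∀ i : Fin g, |ω i - (a i.castSucc : ℝ) / a (Fin.last g)| ≤ C * T ^ (-τ)) → NoRel ξ k T (vals V f a) := by
  classical
  let F : ℕ × ℕ × ℕ → ℕ → Set (Fin g → ℝ) := fun q n =>
    qv '' ExcR (g := g) V V f q.2.1 (1 / ((q.2.2 : ℝ) + 1)) ξ q.1 (2 ^ n)
  let G : ℕ × ℕ × ℕ → Set (Fin g → ℝ) := fun q =>
    {y | ¬ ∀ C : ℝ, ∀ᶠ n : ℕ in atTop, ∀ x ∈ F q n, ¬ dist y x ≤ C * ((2 : ℝ) ^ n) ^ (-τ)}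
  have hG : ∀ q, dimH (G q) ≤ ENNReal.ofReal (g / τ) := by
    intro q
    refine levels (F q) (Nat.cast_nonneg g) hτ fun ε hε => ?_
    obtain ⟨C, -, hC⟩ := excR_count hg hV hVo hf h V q.2.1 (1 / ((q.2.2 : ℝ) + 1)) (by positivity) ξ q.1 ε hε
    refine ⟨C, hC.mono fun n hn => ⟨hn.1.image _, ?_⟩⟩
    exact (Nat.cast_le.2 (Set.ncard_image_le hn.1)).trans hn.2
  refine ⟨⋃ q, G q, ?_, fun ω hω hsep hS k C => ?_⟩
  · rw [dimH_iUnion]
    exact iSup_le hG
  · obtain ⟨R, η, δ, hη, hδ, hinn⟩ := near_inn_open hVo ω hsep hS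
    obtain ⟨R', hR'⟩ := exists_nat_ge R
    obtain ⟨m, hm⟩ := exists_nat_one_div_lt hη
    have h1 : ω ∉ G (k, R', m) := fun hh => hω (Set.mem_iUnion.2 ⟨_, hh⟩)
    rw [Set.mem_ofPred_eq, not_not] at h1
    have h2 := lv_tendsto.eventually (h1 (|C| * 2 ^ τ))
    have h3 : Tendsto (fun T : ℝ => |C| * T ^ (-τ)) atTop (nhds 0) := by
      simpa using (tendsto_rpow_neg_atTop hτ).const_mul |C|
    filter_upwards [h2, h3.eventually (gt_mem_nhds hδ), eventually_ge_atTop (1 : ℝ)] with T h4 h5 h6 a ha ha0 hclose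
    by_contra hrel
    have h7 := (lv_spec h6).1
    have h8 : Inn V V R η a := hinn a ha0 fun i => (hclose i).trans_lt (lt_of_le_of_lt
      (mul_le_mul_of_nonneg_right (le_abs_self C) (by positivity)) h5)
    have h9 : a ∈ ExcR (g := g) V V f (R' : ℝ) (1 / ((m : ℝ) + 1)) ξ k (2 ^ lv T) :=
      ⟨fun i => (ha i).trans h7, Inn_mono h8 hR' hm.le, fun hh => hrel (noRel_mono (by linarith) h7 hh)⟩
    refine h4 (qv a) ⟨a, h9, rfl⟩ ?_
    rw [dist_pi_le_iff (by positivity)]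
    intro i
    rw [Real.dist_eq]
    exact (hclose i).trans (pow_two_le h6 hτ C)

end Pool.Agent.D0H63.AR
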