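import Pool.Agent.D0H63.AR.Pos

set_option autoImplicit false

/-! Values of functions at all the roots of the rational polynomials near to a real polynomial, and at all the conjugates of the
algebraic numbers near to a number. -/

namespace Pool.Agent.D0H63.AR

open Polynomial Filter Topology MeasureTheory
open Pool.Agent.X255.NP Pool.Agent.X255.RH
open Pool.Agent.D0H63.MR (levels lv lv_spec lv_tendsto)

variable {σ : Type} [Fintype σ] [DecidableEq σ] {V : Set ℂ} {f : σ → ℂ → ℂ} {g : ℕ}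

theorem noRel_mono {Q : Type} [Fintype Q] [DecidableEq Q] {ξ : ℕ → ℂ} {k : ℕ} {T T' : ℝ} (hT : 0 ≤ T) (hTT : T ≤ T')
    {x : Q → ℂ} (h : NoRel ξ k T' x) : NoRel ξ k T x := by
  intro F _ _ hF io c hc hrel
  exact h F hF io c (fun l b φ => (hc l b φ).trans (pow_le_pow_left₀ hT hTT k)) hrel

/-- the number of the exceptional polynomials -/
theorem excR_count (hg : 0 < g) (hV : IsPreconnected V) (hVo : IsOpen V) (hf : ∀ v, AnalyticOnNhd ℂ (f v) V)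
    (h : Indep V f) (K : Set ℂ) (R η : ℝ) (hη : 0 < η) (ξ : ℕ → ℂ) (k : ℕ) (ε : ℝ) (hε : 0 < ε) :
    ∃ C : ℝ, 0 ≤ C ∧ ∀ᶠ n : ℕ in atTop, (ExcR (g := g) K V f R η ξ k (2 ^ n)).Finite ∧
      ((ExcR (g := g) K V f R η ξ k (2 ^ n)).ncard : ℝ) ≤ C * ((2 : ℝ) ^ n) ^ ((g : ℝ) + ε) := by
  obtain ⟨D, C, T₀, hC, hT₀, HH⟩ := excR_cov hg hV hVo hf h K R η hη ξ k ε hε
  refine ⟨C * D * 3 ^ g, by positivity, ?_⟩
  have h2 : Tendsto (fun n : ℕ => (2 : ℝ) ^ n) atTop atTop := tendsto_pow_atTop_atTop_of_one_lt (by norm_num)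
  filter_upwards [h2.eventually_ge_atTop T₀] with n hn
  have h1 : (1 : ℝ) ≤ 2 ^ n := one_le_pow₀ (by norm_num)
  have h0 : (0 : ℝ) < 2 ^ n := by positivity
  obtain ⟨h7, h8⟩ := count_of_cov hg (ExcR (g := g) K V f R η ξ k (2 ^ n)) h1 (by
    rintro a ⟨ha, hi, _⟩
    exact ⟨ha, hi.lead⟩) (HH _ hn)
  refine ⟨h7, h8.trans ?_⟩
  have h3 : ((⌊C * ((2 : ℝ) ^ n) ^ ε⌋₊ : ℕ) : ℝ) ≤ C * ((2 : ℝ) ^ n) ^ ε := Nat.floor_le (by positivity)
  rw [Real.rpow_add h0, Real.rpow_natCast, mul_pow]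
  calc ((⌊C * ((2 : ℝ) ^ n) ^ ε⌋₊ : ℕ) : ℝ) * D * (3 ^ g * (2 ^ n) ^ g)
      ≤ C * ((2 : ℝ) ^ n) ^ ε * D * (3 ^ g * (2 ^ n) ^ g) := by gcongr
    _ = _ := by ring

theorem pow_two_le {T τ : ℝ} (hT : 1 ≤ T) (hτ : 0 < τ) (C : ℝ) :
    C * T ^ (-τ) ≤ |C| * 2 ^ τ * ((2 : ℝ) ^ lv T) ^ (-τ) := by
  have h1 := (lv_spec hT).2
  have h2 : (0 : ℝ) < 2 ^ lv T := by positivity
  have h3 : T ^ (-τ) ≤ ((2 : ℝ) ^ lv T / 2) ^ (-τ) :=
    Real.rpow_le_rpow_of_nonpos (by positivity) (by linarith) (by linarith)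
  have h4 : ((2 : ℝ) ^ lv T / 2) ^ (-τ) = 2 ^ τ * ((2 : ℝ) ^ lv T) ^ (-τ) := by
    rw [Real.div_rpow h2.le (by norm_num), Real.rpow_neg (by norm_num : (0 : ℝ) ≤ 2), div_inv_eq_mul, mul_comm]
  calc C * T ^ (-τ) ≤ |C| * T ^ (-τ) := mul_le_mul_of_nonneg_right (le_abs_self C) (by positivity)
    _ ≤ |C| * (2 ^ τ * ((2 : ℝ) ^ lv T) ^ (-τ)) := by
        rw [← h4]
        exact mul_le_mul_of_nonneg_left h3 (abs_nonneg C)
    _ = _ := by ring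

/-- the rational coefficient vectors of the exceptional polynomials -/
noncomputable def qv (a : Fin (g + 1) → ℤ) : Fin g → ℝ := fun i => (a i.castSucc : ℝ) / a (Fin.last g)

/-- **All roots of the rational polynomials near to a real polynomial.** -/
theorem near_poly (hg : 0 < g) (hV : IsPreconnected V) (hVo : IsOpen V) (hf : ∀ v, AnalyticOnNhd ℂ (f v) V)
    (h : Indep V f) {S K : Set ℂ} {c : ℝ} (hB : Bdry S c K V) (ξ : ℕ → ℂ) {τ : ℝ} (hτ : 0 < τ) :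
    ∃ E : Set (Fin g → ℝ), dimH E ≤ ENNReal.ofReal (g / τ) ∧ ∀ ω ∉ E, (mp fun i => (ω i : ℂ)).Separable →
      (∀ p ∈ S, (mp fun i => (ω i : ℂ)).eval p ≠ 0) → ∀ (k : ℕ) (C : ℝ), ∀ᶠ T : ℝ in atTop,
        ∀ a : Fin (g + 1) → ℤ, (∀ i, |(a i : ℝ)| ≤ T) → a (Fin.last g) ≠ 0 →
          (∀ i : Fin g, |ω i - (a i.castSucc : ℝ) / a (Fin.last g)| ≤ C * T ^ (-τ)) → NoRel ξ k T (vals K f a) := by
  classical
  let F : ℕ × ℕ × ℕ → ℕ → Set (Fin g → ℝ) := fun q n =>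
    qv '' ExcR (g := g) K V f q.2.1 (1 / ((q.2.2 : ℝ) + 1)) ξ q.1 (2 ^ n)
  let G : ℕ × ℕ × ℕ → Set (Fin g → ℝ) := fun q =>
    {y | ¬ ∀ C : ℝ, ∀ᶠ n : ℕ in atTop, ∀ x ∈ F q n, ¬ dist y x ≤ C * ((2 : ℝ) ^ n) ^ (-τ)}
  have hG : ∀ q, dimH (G q) ≤ ENNReal.ofReal (g / τ) := by
    intro q
    refine levels (F q) (Nat.cast_nonneg g) hτ fun ε hε => ?_
    obtain ⟨C, -, hC⟩ := excR_count hg hV hVo hf h K q.2.1 (1 / ((q.2.2 : ℝ) + 1)) (by positivity) ξ q.1 ε hε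
    refine ⟨C, hC.mono fun n hn => ⟨hn.1.image _, ?_⟩⟩
    exact (Nat.cast_le.2 (Set.ncard_image_le hn.1)).trans hn.2
  refine ⟨⋃ q, G q, ?_, fun ω hω hsep hS k C => ?_⟩
  · rw [dimH_iUnion]
    exact iSup_le hG
  · obtain ⟨R, η, δ, hη, hδ, hinn⟩ := near_inn hB ω hsep hS
    obtain ⟨R', hR'⟩ := exists_nat_ge R
    obtain ⟨m, hm⟩ := exists_nat_one_div_lt hη
    have h1 : ω ∉ G (k, R', m) := fun hh => hω (Set.mem_iUnion.2 ⟨_, hh⟩)
    rw [Set.mem_ofPred_eq, not_not] at h1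
    have h2 := lv_tendsto.eventually (h1 (|C| * 2 ^ τ))
    have h3 : Tendsto (fun T : ℝ => |C| * T ^ (-τ)) atTop (nhds 0) := by
      simpa using (tendsto_rpow_neg_atTop hτ).const_mul |C|
    filter_upwards [h2, h3.eventually (gt_mem_nhds hδ), eventually_ge_atTop (1 : ℝ)] with T h4 h5 h6 a ha ha0 hclose
    by_contra hrel
    have h7 := (lv_spec h6).1
    have h8 : Inn K V R η a := hinn a ha0 fun i => (hclose i).trans_lt (lt_of_le_of_lt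
      (mul_le_mul_of_nonneg_right (le_abs_self C) (by positivity)) h5)
    have h9 : a ∈ ExcR (g := g) K V f (R' : ℝ) (1 / ((m : ℝ) + 1)) ξ k (2 ^ lv T) :=
      ⟨fun i => (ha i).trans h7, Inn_mono h8 hR' hm.le, fun hh => hrel (noRel_mono (by linarith) h7 hh)⟩
    refine h4 (qv a) ⟨a, h9, rfl⟩ ?_
    rw [dist_pi_le_iff (by positivity)]
    intro i
    rw [Real.dist_eq]
    exact (hclose i).trans (pow_two_le h6 hτ C)

/-- **All conjugates of the algebraic numbers near to a number.** -/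
theorem near_number (hg : 0 < g) (hV : IsPreconnected V) (hVo : IsOpen V) (hf : ∀ v, AnalyticOnNhd ℂ (f v) V)
    (h : Indep V f) (K : Set ℂ) (ξ : ℕ → ℂ) {τ : ℝ} (hτ : 0 < τ) :
    ∃ E : Set ℂ, dimH E ≤ ENNReal.ofReal (g / τ) ∧ ∀ x ∉ E, ∀ (k : ℕ) (C R η : ℝ), 0 < η → ∀ᶠ T : ℝ in atTop,
      ∀ a : Fin (g + 1) → ℤ, (∀ i, |(a i : ℝ)| ≤ T) → Inn K V R η a →
        (∃ z, (pol a).eval z = 0 ∧ ‖x - z‖ ≤ C * T ^ (-τ)) → NoRel ξ k T (vals K f a) := by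
  classical
  let F : ℕ × ℕ × ℕ → ℕ → Set ℂ := fun q n =>
    ⋃ a ∈ ExcR (g := g) K V f q.2.1 (1 / ((q.2.2 : ℝ) + 1)) ξ q.1 (2 ^ n), ((pol a).roots.toFinset : Set ℂ)
  let G : ℕ × ℕ × ℕ → Set ℂ := fun q =>
    {y | ¬ ∀ C : ℝ, ∀ᶠ n : ℕ in atTop, ∀ x ∈ F q n, ¬ dist y x ≤ C * ((2 : ℝ) ^ n) ^ (-τ)}
  have hG : ∀ q, dimH (G q) ≤ ENNReal.ofReal (g / τ) := by
    intro q
    refine levels (F q) (Nat.cast_nonneg g) hτ fun ε hε => ?_
    obtain ⟨C, hC0, hC⟩ := excR_count hg hV hVo hf h K q.2.1 (1 / ((q.2.2 : ℝ) + 1)) (by positivity) ξ q.1 ε hε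
    refine ⟨g * C, hC.mono fun n hn => ?_⟩
    have h1 : F q n = ((hn.1.toFinset.biUnion fun a => (pol a).roots.toFinset : Finset ℂ) : Set ℂ) := by
      ext z
      simp [F]
    have h2 : ((hn.1.toFinset.biUnion fun a => (pol a).roots.toFinset).card : ℝ) ≤ g * hn.1.toFinset.card := by
      have h3 : (hn.1.toFinset.biUnion fun a => (pol a).roots.toFinset).card ≤ hn.1.toFinset.card * g := by
        refine Finset.card_biUnion_le_card_mul _ _ _ fun a _ => ?_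
        exact (Multiset.toFinset_card_le _).trans ((Polynomial.card_roots' _).trans (pol_degree_le a))
      exact_mod_cast h3.trans_eq (Nat.mul_comm _ _)
    rw [h1]
    refine ⟨Finset.finite_toSet _, ?_⟩
    rw [Set.ncard_coe_finset]
    refine h2.trans ?_
    have h4 := hn.2
    rw [Set.ncard_eq_toFinset_card _ hn.1] at h4
    calc (g : ℝ) * hn.1.toFinset.card ≤ g * (C * ((2 : ℝ) ^ n) ^ ((g : ℝ) + ε)) :=
          mul_le_mul_of_nonneg_left h4 (Nat.cast_nonneg g)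
      _ = _ := by ring
  refine ⟨⋃ q, G q, ?_, fun x hx k C R η hη => ?_⟩
  · rw [dimH_iUnion]
    exact iSup_le hG
  · obtain ⟨R', hR'⟩ := exists_nat_ge R
    obtain ⟨m, hm⟩ := exists_nat_one_div_lt hη
    have h1 : x ∉ G (k, R', m) := fun hh => hx (Set.mem_iUnion.2 ⟨_, hh⟩)
    rw [Set.mem_ofPred_eq, not_not] at h1
    have h2 := lv_tendsto.eventually (h1 (|C| * 2 ^ τ))
    filter_upwards [h2, eventually_ge_atTop (1 : ℝ)] with T h4 h6 a ha hinn hz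
    obtain ⟨z, hz, hclose⟩ := hz
    by_contra hrel
    have h7 := (lv_spec h6).1
    have h9 : a ∈ ExcR (g := g) K V f (R' : ℝ) (1 / ((m : ℝ) + 1)) ξ k (2 ^ lv T) :=
      ⟨fun i => (ha i).trans h7, Inn_mono hinn hR' hm.le, fun hh => hrel (noRel_mono (by linarith) h7 hh)⟩
    refine h4 z (Set.mem_biUnion h9 ?_) ?_
    · rw [Finset.mem_coe, Multiset.mem_toFinset, mem_roots (pol_ne hinn.lead)]
      exact hz
    · rw [dist_eq_norm]
      exact hclose.trans (pow_two_le h6 hτ C)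

/-- real numbers in a set of complex numbers of small dimension -/
theorem null_line {E : Set ℂ} {s : ℝ} (hE : dimH E ≤ ENNReal.ofReal s) (hs : s < 1) : volume {x : ℝ | (x : ℂ) ∈ E} = 0 := by
  have h1 : dimH {x : ℝ | (x : ℂ) ∈ E} ≤ dimH E := by
    rw [← Complex.isometry_ofReal.dimH_image]
    refine dimH_mono ?_
    rintro _ ⟨x, hx, rfl⟩
    exact hx
  have h2 : dimH {x : ℝ | (x : ℂ) ∈ E} < ((1 : NNReal) : ENNReal) := by
    refine (h1.trans hE).trans_lt ?_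
    rw [ENNReal.coe_one]
    exact ENNReal.ofReal_lt_one.2 hs
  refine measure_zero_of_dimH_lt ?_ h2
  rw [NNReal.coe_one, hausdorffMeasure_real]

end Pool.Agent.D0H63.AR
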