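import Pool.Agent.X255.RH.Main
import Pool.Agent.D0H63.MR.NearPair

set_option autoImplicit false

/-! The position of the roots of the rational polynomials near to a real polynomial with simple roots. -/

namespace Pool.Agent.D0H63.AR

open Polynomial Filter Topology
open Pool.Agent.X255.NP Pool.Agent.X255.RH Pool.Agent.X255.NH

variable {g : ℕ}

/-- a positive lower bound of finitely many positive numbers -/
theorem exists_le_all {ι : Type*} [Finite ι] (f : ι → ℝ) (hf : ∀ i, 0 < f i) : ∃ η : ℝ, 0 < η ∧ ∀ i, η ≤ f i := by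
  have := Fintype.ofFinite ι
  refine ⟨(1 + ∑ i, (f i)⁻¹)⁻¹, ?_, fun i => ?_⟩
  · have : 0 ≤ ∑ i, (f i)⁻¹ := Finset.sum_nonneg fun i _ => (inv_pos.2 (hf i)).le
    positivity
  · have h1 : (f i)⁻¹ ≤ ∑ i, (f i)⁻¹ :=
      Finset.single_le_sum (f := fun i => (f i)⁻¹) (fun j _ => (inv_pos.2 (hf j)).le) (Finset.mem_univ i)
    have h2 : (f i)⁻¹ ≤ 1 + ∑ i, (f i)⁻¹ := by linarith
    have h3 := inv_anti₀ (inv_pos.2 (hf i)) h2
    rwa [inv_inv] at h3

/-- lower bound on a compact set -/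
theorem pos_compact {Y : Type*} [TopologicalSpace Y] {K : Set Y} (hK : IsCompact K) (G : Y → ℝ) (hG : ContinuousOn G K)
    (hpos : ∀ y ∈ K, 0 < G y) : ∃ η : ℝ, 0 < η ∧ ∀ y ∈ K, η ≤ G y := by
  rcases K.eq_empty_or_nonempty with rfl | hne
  · exact ⟨1, one_pos, by simp⟩
  · obtain ⟨y, hy, hmin⟩ := hK.exists_isMinOn hne hG
    exact ⟨G y, hpos y hy, fun z hz => hmin hz⟩

/-- near a polynomial with simple roots, none of them in the finite set `S` -/
theorem sep_near (ω : Fin g → ℂ) (hsep : (mp ω).Separable) (S : Finset ℂ) (hS : ∀ p ∈ S, (mp ω).eval p ≠ 0) (R : ℝ) :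
    ∃ η : ℝ, 0 < η ∧ ∀ z : Fin g → ℂ, (∀ i, ‖z i‖ ≤ R) → (∀ i, ‖co z i - ω i‖ < η) →
      (∀ i j, i ≠ j → η ≤ ‖z i - z j‖) ∧ ∀ i, ∀ p ∈ S, η ≤ ‖z i - p‖ := by
  classical
  have hKc : IsCompact (Metric.closedBall (0 : Fin g → ℂ) |R|) := isCompact_closedBall _ _
  have h1 : ∀ q : {q : Fin g × Fin g // q.1 ≠ q.2}, ∃ η : ℝ, 0 < η ∧ ∀ z ∈ Metric.closedBall (0 : Fin g → ℂ) |R|,
      η ≤ ‖co z - ω‖ + ‖z q.1.1 - z q.1.2‖ := by
    rintro ⟨⟨i, j⟩, hij⟩
    refine pos_compact hKc _ (Continuous.continuousOn ?_) fun z _ => ?_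
    · exact (co_cont.sub continuous_const).norm.add (((continuous_apply i).sub (continuous_apply j)).norm)
    · by_contra hle
      have hle := not_lt.1 hle
      have e1 := norm_nonneg (co z - ω)
      have e2 := norm_nonneg (z i - z j)
      have h2 : ‖co z - ω‖ = 0 := le_antisymm (by linarith) e1
      have h3 : ‖z i - z j‖ = 0 := le_antisymm (by linarith) e2
      rw [norm_eq_zero, sub_eq_zero] at h2 h3
      have h4 := hsep
      rw [← h2, mp_co] at h4
      exact hij ((separable_prod_X_sub_C_iff.1 h4) h3)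
  have h2 : ∀ q : Fin g × S, ∃ η : ℝ, 0 < η ∧ ∀ z ∈ Metric.closedBall (0 : Fin g → ℂ) |R|,
      η ≤ ‖co z - ω‖ + ‖z q.1 - (q.2 : ℂ)‖ := by
    rintro ⟨i, p⟩
    refine pos_compact hKc _ (Continuous.continuousOn ?_) fun z _ => ?_
    · exact (co_cont.sub continuous_const).norm.add (((continuous_apply i).sub continuous_const).norm)
    · by_contra hle
      have hle := not_lt.1 hle
      have e1 := norm_nonneg (co z - ω)
      have e2 := norm_nonneg (z i - (p : ℂ))
      have h2 : ‖co z - ω‖ = 0 := le_antisymm (by linarith) e1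
      have h3 : ‖z i - (p : ℂ)‖ = 0 := le_antisymm (by linarith) e2
      rw [norm_eq_zero, sub_eq_zero] at h2 h3
      apply hS p p.2
      rw [← h2, mp_co, eval_prod]
      refine Finset.prod_eq_zero (Finset.mem_univ i) ?_
      rw [eval_sub, eval_X, eval_C, h3, sub_self]
  choose η1 h1p h1 using h1
  choose η2 h2p h2 using h2
  obtain ⟨a, ha, ha'⟩ := exists_le_all η1 h1p
  obtain ⟨b, hb, hb'⟩ := exists_le_all η2 h2p
  refine ⟨min a b / 2, by positivity, fun z hz hco => ?_⟩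
  have hm := lt_min ha hb
  have hzK : z ∈ Metric.closedBall (0 : Fin g → ℂ) |R| := by
    rw [Metric.mem_closedBall, dist_zero_right, pi_norm_le_iff_of_nonneg (abs_nonneg R)]
    exact fun i => (hz i).trans (le_abs_self R)
  have hcoz : ‖co z - ω‖ < min a b / 2 := by
    rw [pi_norm_lt_iff (by positivity)]
    exact hco
  refine ⟨fun i j hij => ?_, fun i p hp => ?_⟩
  · have h3 := h1 ⟨(i, j), hij⟩ z hzK
    have h4 := ha' ⟨(i, j), hij⟩
    have h5 := min_le_left a b
    simp only at h3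
    linarith
  · have h3 := h2 (i, ⟨p, hp⟩) z hzK
    have h4 := hb' (i, ⟨p, hp⟩)
    have h5 := min_le_right a b
    simp only at h3
    linarith

/-- the roots -/
theorem exists_roots (a : Fin (g + 1) → ℤ) (ha : a (Fin.last g) ≠ 0) : ∃ z : Fin g → ℂ, IsRoots a z ∧ co z = quoC a := by
  have ha0c : ((a (Fin.last g) : ℤ) : ℂ) ≠ 0 := by exact_mod_cast ha
  obtain ⟨z, hz⟩ := exists_co (quoC a)
  refine ⟨z, ⟨ha, ?_⟩, hz⟩
  rw [← mp_co, hz]
  ext n
  rw [coeff_C_mul]
  rcases lt_trichotomy n g with hn | hn | hn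
  · have h1 := pol_coeff a (Fin.castSucc ⟨n, hn⟩)
    have h2 := mp_coeff (quoC a) ⟨n, hn⟩
    simp only [Fin.val_castSucc] at h1
    rw [h1, h2]
    simp only [quoC, quo]
    rw [map_div₀]
    simp only [eq_intCast, map_intCast]
    rw [mul_div_cancel₀ _ ha0c]
  · subst hn
    have h1 := pol_coeff a (Fin.last n)
    rw [Fin.val_last] at h1
    rw [h1]
    have h2 := (mp_monic (quoC a)).coeff_natDegree
    rw [mp_degree] at h2
    rw [h2, mul_one]
  · rw [coeff_eq_zero_of_natDegree_lt ((pol_degree_le a).trans_lt hn),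
      coeff_eq_zero_of_natDegree_lt (by rw [mp_degree]; exact hn), mul_zero]

/-- the boundary of `V` near `K`, away from the real line, from `S`, and up to the distance `c` -/
def Bdry (S : Set ℂ) (c : ℝ) (K V : Set ℂ) : Prop :=
  0 < c ∧ (∀ R : ℝ, (S ∩ Metric.closedBall 0 R).Finite) ∧
    ∀ z ∈ K, ∀ w, w ∉ V → (∃ p ∈ S, ‖z - p‖ ≤ ‖z - w‖) ∨ (z.im ≠ 0 ∧ |z.im| ≤ ‖z - w‖) ∨ c ≤ ‖z - w‖

theorem Inn_mono {K V : Set ℂ} {R R' η η' : ℝ} {a : Fin (g + 1) → ℤ} (h : Inn K V R η a) (hR : R ≤ R') (hη : η' ≤ η) :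
    Inn K V R' η' a := by
  obtain ⟨z, h1, h2, h3, h4⟩ := h
  exact ⟨z, h1, fun i => (h2 i).trans hR, fun i j hij => hη.trans (h3 i j hij),
    fun i hi => (Metric.ball_subset_ball hη).trans (h4 i hi)⟩

/-- **the position of the roots near a polynomial with simple roots** -/
theorem near_inn {S K V : Set ℂ} {c : ℝ} (hB : Bdry S c K V) (ω : Fin g → ℝ)
    (hsep : (mp fun i => (ω i : ℂ)).Separable) (hS : ∀ p ∈ S, (mp fun i => (ω i : ℂ)).eval p ≠ 0) :
    ∃ R η δ : ℝ, 0 < η ∧ 0 < δ ∧ ∀ a : Fin (g + 1) → ℤ, a (Fin.last g) ≠ 0 →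
      (∀ i : Fin g, |ω i - (a i.castSucc : ℝ) / a (Fin.last g)| < δ) → Inn K V R η a := by
  classical
  obtain ⟨hc, hfin, hB⟩ := hB
  obtain ⟨M, hM⟩ : ∃ M : ℝ, M = 1 + ∑ i, |ω i| := ⟨_, rfl⟩
  have hM1 : 1 ≤ M := by
    rw [hM]
    have : 0 ≤ ∑ i, |ω i| := Finset.sum_nonneg fun i _ => abs_nonneg _
    linarith
  have hωM : ∀ i, |ω i| + 1 ≤ M := by
    intro i
    have := Finset.single_le_sum (f := fun i => |ω i|) (fun j _ => abs_nonneg _) (Finset.mem_univ i)
    rw [hM]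
    linarith
  obtain ⟨S', hS'⟩ : ∃ S' : Finset ℂ, S' = (hfin (M + 2)).toFinset := ⟨_, rfl⟩
  obtain ⟨η₀, hη₀, hsn⟩ := sep_near (fun i => (ω i : ℂ)) hsep S' (fun p hp => by
    rw [hS', Set.Finite.mem_toFinset] at hp
    exact hS p hp.1) (M + 1)
  obtain ⟨η, hη⟩ : ∃ η : ℝ, η = min (min (η₀ / 2) c) 1 := ⟨_, rfl⟩
  have hηp : 0 < η := by rw [hη]; exact lt_min (lt_min (by linarith) hc) one_pos
  have hη1 : η ≤ η₀ / 2 := by rw [hη]; exact (min_le_left _ _).trans (min_le_left _ _)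
  have hη2 : η ≤ c := by rw [hη]; exact (min_le_left _ _).trans (min_le_right _ _)
  have hη3 : η ≤ 1 := by rw [hη]; exact min_le_right _ _
  refine ⟨M + 1, η, min η₀ 1, hηp, lt_min hη₀ one_pos, fun a ha hclose => ?_⟩
  obtain ⟨z, hz, hco⟩ := exists_roots a ha
  have hq : ∀ i, quoC a i = (((a i.castSucc : ℝ) / a (Fin.last g) : ℝ) : ℂ) := by
    intro i
    simp only [quoC, quo]
    push_cast
    rfl
  have hqω : ∀ i, ‖quoC a i - (ω i : ℂ)‖ < min η₀ 1 := by
    intro i
    rw [hq, ← Complex.ofReal_sub, Complex.norm_real, Real.norm_eq_abs, abs_sub_comm]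
    exact hclose i
  have hqM : ∀ i, ‖co z i‖ ≤ M := by
    intro i
    rw [hco]
    have h1 := norm_le_norm_add_norm_sub' (quoC a i) (ω i : ℂ)
    have h2 := (hqω i).le.trans (min_le_right _ _)
    rw [Complex.norm_real, Real.norm_eq_abs] at h1
    linarith [hωM i]
  have hzR : ∀ i, ‖z i‖ ≤ M + 1 := by
    intro i
    refine root_le hM1 _ hqM _ ?_
    rw [mp_co, eval_prod, Finset.prod_eq_zero (Finset.mem_univ i) (by simp)]
  obtain ⟨hs1, hs2⟩ := hsn z hzR (fun i => by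
    rw [hco]
    exact (hqω i).trans_le (min_le_left _ _))
  refine ⟨z, hz, hzR, fun i j hij => ?_, fun i hi y hy => ?_⟩
  · have := hs1 i j hij
    linarith
  · by_contra hyV
    rw [Metric.mem_ball, dist_eq_norm, norm_sub_rev] at hy
    rcases hB (z i) hi y hyV with ⟨p, hp, hpz⟩ | ⟨him, him2⟩ | hc1
    · have hpR : ‖p‖ ≤ M + 2 := by
        have h1 := norm_sub_norm_le p (z i)
        rw [norm_sub_rev] at h1
        have h2 := hzR i
        linarith
      have hpS : p ∈ S' := by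
        rw [hS', Set.Finite.mem_toFinset]
        refine ⟨hp, ?_⟩
        rw [Metric.mem_closedBall, dist_zero_right]
        exact hpR
      have := hs2 i p hpS
      linarith
    · obtain ⟨j, hj⟩ := (IsRoots.root_iff hz).1 (pol_conj a (z i) (hz.root i))
      have hij : i ≠ j := by
        rintro rfl
        apply him
        have h1 := congrArg Complex.im hj
        rw [Complex.conj_im] at h1
        linarith
      have h1 := hs1 i j hij
      rw [hj] at h1
      have h2 : ‖z i - (starRingEnd ℂ) (z i)‖ = 2 * |(z i).im| := by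
        rw [Complex.sub_conj, norm_mul, Complex.norm_I, mul_one, Complex.norm_real, Real.norm_eq_abs, abs_mul,
          abs_of_pos (by norm_num : (0 : ℝ) < 2)]
      rw [h2] at h1
      linarith
    · linarith

end Pool.Agent.D0H63.AR
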